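import Pool.Agent.Helper76.TC.Goals

/-! Packet TC-AM. -/

set_option autoImplicit false

open Set

namespace Pool.Agent.Helper47.TC.AM

open Pool.Agent.Helper76.TC
open Pool.Agent.Helper50.CT (rv Cov Sh)

lemma turn_mono {A A' : ℝ} (h : A ≤ A') {X : Type} [MetricSpace X] (hT : Turn A X) :
    Turn A' X := by
  intro x y
  refine (hT x y).mono ?_
  apply Metric.closedBall_subset_closedBall
  exact mul_le_mul_of_nonneg_right h dist_nonneg

theorem t (hCO : S_CO) (hSE : S_SE) (hKN : S_KN) (hAE : S_AE) : S_AM := by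
  intro n A C N R0 l hN hR0 hl
  obtain ⟨K, hK1, hK⟩ := hKN n C N hN
  obtain ⟨M, hM⟩ : ∃ M : ℕ, C * (6 * (K : ℝ)) ^ N ≤ M := exists_nat_ge _
  obtain ⟨A', hA'⟩ : ∃ A' : ℝ, A' = max A 1 := ⟨_, rfl⟩
  have hAA' : A ≤ A' := by rw [hA']; exact le_max_left _ _
  have h1A' : 1 ≤ A' := by rw [hA']; exact le_max_right _ _
  have hn3 : (0 : ℝ) < (n : ℝ) + 3 := by positivity
  obtain ⟨D', hD'⟩ : ∃ D' : ℝ, D' = min (l / 4) (R0 / ((n : ℝ) + 3)) := ⟨_, rfl⟩
  have hD'0 : 0 < D' := by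
    rw [hD']; exact lt_min (by linarith) (div_pos hR0 hn3)
  have hD'l : D' ≤ l / 4 := by rw [hD']; exact min_le_left _ _
  have hD'R : ((n : ℝ) + 3) * D' ≤ R0 := by
    have : D' ≤ R0 / ((n : ℝ) + 3) := by rw [hD']; exact min_le_right _ _
    rw [le_div_iff₀ hn3] at this
    linarith
  have hden : 0 < 480 * A' * ((M : ℝ) + 1) := by positivity
  obtain ⟨δ, hδ⟩ : ∃ δ : ℝ, δ = min (l / 12) (D' / (480 * A' * ((M : ℝ) + 1))) := ⟨_, rfl⟩
  have hδ0 : 0 < δ := by
    rw [hδ]; exact lt_min (by linarith) (div_pos hD'0 hden)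
  have hδl : 12 * δ ≤ l := by
    have : δ ≤ l / 12 := by rw [hδ]; exact min_le_left _ _
    linarith
  have hδM : (M : ℝ) * (24 * A' * (20 * δ)) ≤ D' := by
    have h1 : δ ≤ D' / (480 * A' * ((M : ℝ) + 1)) := by rw [hδ]; exact min_le_right _ _
    rw [le_div_iff₀ hden] at h1
    have h2 : 0 ≤ δ * (480 * A') := by positivity
    nlinarith
  refine ⟨δ, hδ0, ?_⟩
  intro X T _ _ _ _ _ _ _ _ π φ hφ hcov hturn hpack
  by_contra hlt
  push Not at hlt
  have hturn' : Turn A' X := turn_mono hAA' hturn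
  obtain ⟨p, q, D, hset, hD⟩ := hSE n A' l δ X T π hcov h1A' hturn' hl hlt
  obtain ⟨y, hy⟩ := hCO n A' (20 * δ) D X T π p q hset
  have hdq : dist (π p) (π q) = D := hset.dq
  have hE : 0 ≤ 24 * A' * (20 * δ) := by positivity
  have hfar : ∃ z : X, D' ≤ dist (π y) (π z) := by
    by_contra hno
    push Not at hno
    have h1 := hno p
    have h2 := hno q
    have h3 := dist_triangle (π p) (π y) (π q)
    rw [dist_comm (π p) (π y)] at h3
    linarith
  obtain ⟨z, hz⟩ := hfar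
  exact hAE n X T π A' C N R0 D' (24 * A' * (20 * δ)) K M y z hcov hturn' hpack hK1 hK hM
    hD'0 hD'R hE hδM hz hy

end Pool.Agent.Helper47.TC.AM
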